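import Pool.Agent.TH570.Hopf.Final

/-!
# A sharp linear bound for the Gauss-Bonnet-Chern integrand in dimension six

If all sectional curvatures of an algebraic curvature tensor in dimension six lie in `[-c, 0]`, then
the Gauss-Bonnet-Chern integrand is at most `kap6 · c² (scal / 10 + 2 c)`, where `kap6 = 15 / (8 π³)`
is its value for constant curvature one. So a closed Riemannian six-manifold with `-c ≤ K ≤ 0` whose
scalar curvature is at most `-20 c` in the mean over the manifold has nonpositive Euler
characteristic (negative if the inequality is strict). The bound is attained for every value of the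
scalar curvature between `-30 c` (constant curvature) and `-20 c` (a line times a space of constant
curvature).

Proof: write `R = -(c R₀ - T)` with `R₀` of constant curvature one and expand the integrand in `T`.
The dual `E` of `T ∧ T` has nonnegative sectional values by the Gauss-Bonnet inequality in dimension
four, and two tensors `A, E` with nonnegative sectional values satisfy
`⟨Ric A, Ric E⟩ + (3/2) ⟨A, E⟩ ≥ 0` (average over the unit vectors `x` of the traces of the products
of the Jacobi operators of `x`).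
-/

set_option autoImplicit false

namespace Pool.Agent.Results.MP_5a30bb_gt.SharpMeanDimSix

open Hopf6 MeasureTheory Pool.Agent.TH570.Hopf

/-- **The sharp linear bound for the integrand in dimension six.**
(1) The pointwise bound for `-c ≤ K ≤ 0`.
(2) The integrated bound for a field of curvature tensors with `-c ≤ K ≤ 0`, where `c` may depend on
the point.
(3) For constant `c`, the sign follows from the mean of the scalar curvature over `M`.
(4) Sharpness: the bound is attained for every value of the scalar curvature in `[-30 c, -20 c]`. -/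
theorem result :
    (∀ (V : Type) [NormedAddCommGroup V] [InnerProductSpace ℝ V]
      (e : OrthonormalBasis (Fin 6) ℝ V) (R : V → V → V → V → ℝ), AlgCurv R →
      ∀ c : ℝ, 0 ≤ c → Hopf6.SecIn R (-c) 0 →
        Hopf6.gbc e R ≤ kap6 * (c ^ 2 * (scalar e R / 10 + 2 * c))) ∧
    (∀ (M : Type) [MeasurableSpace M] (μ : Measure M) (K : CurvField M) (c : M → ℝ),
      (∀ p, 0 ≤ c p ∧ K.SecIn p (-(c p)) 0) → Integrable K.gbc μ →
      Integrable (fun p => c p ^ 2 * (K.scal p / 10 + 2 * c p)) μ →
        ∫ p, K.gbc p ∂μ ≤ kap6 * ∫ p, c p ^ 2 * (K.scal p / 10 + 2 * c p) ∂μ) ∧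
    (∀ (M : Type) [MeasurableSpace M] (μ : Measure M) [IsFiniteMeasure μ] (K : CurvField M)
      (c : ℝ), 0 < c → (∀ p, K.SecIn p (-c) 0) → Integrable K.gbc μ → Integrable K.scal μ →
        (∫ p, K.scal p ∂μ ≤ -(20 * c * μ.real Set.univ) → ∫ p, K.gbc p ∂μ ≤ 0) ∧
        (∫ p, K.scal p ∂μ < -(20 * c * μ.real Set.univ) → ∫ p, K.gbc p ∂μ < 0)) ∧
    (∀ c t : ℝ, 0 ≤ c → 0 ≤ t → t ≤ 1 → ∃ R : E6 → E6 → E6 → E6 → ℝ, AlgCurv R ∧
      Hopf6.SecIn R (-c) 0 ∧
      scalar (EuclideanSpace.basisFun (Fin 6) ℝ) R = -((30 - 10 * t) * c) ∧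
      Hopf6.gbc (EuclideanSpace.basisFun (Fin 6) ℝ) R =
        kap6 * (c ^ 2 * (scalar (EuclideanSpace.basisFun (Fin 6) ℝ) R / 10 + 2 * c))) := by
  have hN : ∀ (M : Type) [MeasurableSpace M] (μ : Measure M) (K : CurvField M) (c : M → ℝ),
      (∀ p, 0 ≤ c p ∧ K.SecIn p (-(c p)) 0) → Integrable K.gbc μ →
      Integrable (fun p => c p ^ 2 * (K.scal p / 10 + 2 * c p)) μ →
        ∫ p, K.gbc p ∂μ ≤ kap6 * ∫ p, c p ^ 2 * (K.scal p / 10 + 2 * c p) ∂μ := by
    intro M _ μ K c h h1 h2
    rw [← integral_const_mul]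
    exact integral_mono h1 (h2.const_mul _) fun p =>
      mean_bound_neg (K.e p) (K.curv p) (h p).1 (h p).2
  refine ⟨fun V _ _ e R hR c hc h => mean_bound_neg e hR hc h, hN, ?_, ?_⟩
  · intro M _ μ _ K c hc h h1 h2
    have hi : Integrable (fun p => c ^ 2 * (K.scal p / 10 + 2 * c)) μ :=
      ((h2.div_const _).add (integrable_const _)).const_mul _
    have h3 := hN M μ K (fun _ => c) (fun p => ⟨hc.le, h p⟩) h1 hi
    have h4 : ∫ p, c ^ 2 * (K.scal p / 10 + 2 * c) ∂μ =
        c ^ 2 * ((∫ p, K.scal p ∂μ) / 10 + 2 * c * μ.real Set.univ) := by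
      rw [integral_const_mul, integral_add (h2.div_const _) (integrable_const _),
        integral_div, integral_const, smul_eq_mul]
      ring
    simp only [h4] at h3
    have hk := kap6_pos
    have hc2 : 0 < c ^ 2 := by positivity
    refine ⟨fun h5 => h3.trans ?_, fun h5 => lt_of_le_of_lt h3 ?_⟩
    · have h6 : (∫ p, K.scal p ∂μ) / 10 + 2 * c * μ.real Set.univ ≤ 0 := by linarith
      exact mul_nonpos_of_nonneg_of_nonpos hk.le (mul_nonpos_of_nonneg_of_nonpos hc2.le h6)
    · have h6 : (∫ p, K.scal p ∂μ) / 10 + 2 * c * μ.real Set.univ < 0 := by linarith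
      exact mul_neg_of_pos_of_neg hk (mul_neg_of_pos_of_neg hc2 h6)
  · intro c t hc h0 h1
    exact ⟨ext6 c t, ext6_curv c t, ext_sec hc h0 h1, scalar_ext c t, gbc_ext c t⟩

end Pool.Agent.Results.MP_5a30bb_gt.SharpMeanDimSix
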