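import Pool.Agent.TH420.HS.Deg
import Pool.Agent.W666.GB.Main

/-!
# The Hopf sign for nonpositively curved submanifolds of flat manifolds of low codimension

In every even dimension `2 m`: the Gauss–Bonnet–Chern integrand of a curvature tensor of Gauss type
`R(x, y, z, w) = ⟪β(x, z), β(y, w)⟫ - ⟪β(x, w), β(y, z)⟫`, `β` symmetric with values in `ℝ^k`,
`k ≤ m`, has the sign `(-1)^m` (or is zero) if all the sectional curvatures are nonpositive, and it
vanishes for `k < m`.
The proof produces a subspace `T` of dimension at least `m` with `β = 0` on `T × T` and writes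
`(-1)^m` times the integrand in an adapted basis as a sum of squares (a scalar product of
symmetric tensors).
-/

set_option autoImplicit false

namespace Pool.Agent.Results.MP_5a30bb_gt.SubmanifoldSign

open Pool.Agent.W666.GB Pool.Agent.TH420.HS MeasureTheory Module

/-- bilinear maps with values in `ℝ^k` (second fundamental forms of codimension `k`) -/
abbrev Form (V : Type) [NormedAddCommGroup V] [InnerProductSpace ℝ V] (k : ℕ) : Type :=
  V →ₗ[ℝ] V →ₗ[ℝ] EuclideanSpace ℝ (Fin k)

section

variable {V : Type} [NormedAddCommGroup V] [InnerProductSpace ℝ V] {k : ℕ}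

/-- `β` is symmetric -/
def Sym (β : Form V k) : Prop := ∀ x y, β x y = β y x

/-- for every normal vector `ν` the bilinear form `⟪β, ν⟫` is degenerate -/
def AllDegenerate (β : Form V k) : Prop :=
  ∀ ν : EuclideanSpace ℝ (Fin k), ∃ x : V, x ≠ 0 ∧ ∀ y : V, inner ℝ (β x y) ν = 0

/-- The tensor `R` is the curvature tensor `⟪β(x, z), β(y, w)⟫ - ⟪β(x, w), β(y, z)⟫` of a symmetric
bilinear map `β` with values in `ℝ^k` (Gauss equation in codimension `k` in a flat manifold). -/
def GaussType (R : V → V → V → V → ℝ) (k : ℕ) : Prop :=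
  ∃ β : Form V k, Sym β ∧ R = gaussT β

/-- all sectional curvatures are nonpositive -/
def Nonpos (R : V → V → V → V → ℝ) : Prop := ∀ x y, R x y x y ≤ 0

/-- the Hopf sign of the Gauss–Bonnet–Chern integrand of `gaussT β`, with the case of equality -/
def Sign {m : ℕ} (e : OrthonormalBasis (Fin m × Bool) ℝ V) (β : Form V k) : Prop :=
  0 ≤ (-1) ^ m * gbc e (gaussT β) ∧ (gbc e (gaussT β) = 0 ↔ AllDegenerate β)

end

/-- **The Hopf sign for submanifolds.**
(1) Codimension `k ≤ m`, sectional curvature nonpositive: sign, case of equality, vanishing for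
`k < m`.
(2) Any codimension and no hypothesis on the curvature, but `β = 0` on `T × T` for a subspace `T`
of dimension at least `m`: sign, case of equality.
(3) The integrated form of (1), for fields of curvature tensors. -/
theorem result :
    (∀ (m k : ℕ) (V : Type) [NormedAddCommGroup V] [InnerProductSpace ℝ V]
      (e : OrthonormalBasis (Fin m × Bool) ℝ V) (β : Form V k),
      Sym β → Nonpos (gaussT β) → k ≤ m → Sign e β ∧ (k < m → gbc e (gaussT β) = 0)) ∧
    (∀ (m k : ℕ) (V : Type) [NormedAddCommGroup V] [InnerProductSpace ℝ V]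
      (e : OrthonormalBasis (Fin m × Bool) ℝ V) (β : Form V k) (T : Submodule ℝ V),
      Sym β → (∀ x ∈ T, ∀ y ∈ T, β x y = 0) → m ≤ finrank ℝ T → Sign e β) ∧
    (∀ (m : ℕ) (M : Type) [MeasurableSpace M] (μ : Measure M) (K : CurvField m M),
      (∀ p, Nonpos (K.R p) ∧ GaussType (K.R p) m) →
        0 ≤ (-1) ^ m * ∫ p, K.gb p ∂μ ∧
        ((∀ p, ∃ k < m, GaussType (K.R p) k) → ∀ p, K.gb p = 0)) := by
  refine ⟨?_, ?_, ?_⟩
  · intro m k V _ _ e β hs hK hd
    obtain ⟨h1, h2, h3⟩ := low_codimension_iff e β hs hK (by simpa using hd)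
    exact ⟨⟨h1, h2⟩, fun hk => h3 (by simpa using hk)⟩
  · intro m k V _ _ e β T hs hT hd
    obtain ⟨h1, -, h3⟩ := sign_of_asymptotic e β hs T hT hd
    refine ⟨h1, fun h0 => ?_, fun h0 => zero_of_degenerate e β hs T hT hd h0⟩
    by_contra hc
    unfold AllDegenerate at hc
    push Not at hc
    obtain ⟨ν, hν⟩ := hc
    have h4 := h3 ⟨ν, fun x hx => by
      by_contra hx0
      obtain ⟨y, hy⟩ := hν x hx0
      exact hy (hx y)⟩
    rw [h0, mul_zero] at h4
    exact lt_irrefl _ h4
  · intro m M _ μ K hK
    have hpt : ∀ p, 0 ≤ (-1) ^ m * K.gb p := by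
      intro p
      obtain ⟨hn, β, hs, hR⟩ := hK p
      have h1 := (low_codimension_iff (K.e p) β hs (by rw [← hR]; exact hn) (by simp)).1
      rw [← hR] at h1
      exact h1
    refine ⟨?_, ?_⟩
    · rw [← integral_const_mul]
      exact integral_nonneg hpt
    · intro h p
      obtain ⟨k, hk, β, hs, hR⟩ := h p
      have h1 := (low_codimension_iff (K.e p) β hs (by rw [← hR]; exact (hK p).1)
        (by simp only [finrank_euclideanSpace, Fintype.card_fin]; exact hk.le)).2.2
        (by simp only [finrank_euclideanSpace, Fintype.card_fin]; exact hk)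
      rw [← hR] at h1
      exact h1

end Pool.Agent.Results.MP_5a30bb_gt.SubmanifoldSign
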